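import Pool.Agent.H97R2.LPB.Props

/-! S_weight: upper bound for the weight -/

open Polynomial Filter Topology MeasureTheory Pool.Agent.H337R2 Pool.Agent.LP

namespace Pool.Agent.LPB

namespace H154W

noncomputable section

def g (y u : ℝ) : ℝ := 1 / 2 * Real.log (u ^ 2 + y ^ 2)

lemma hasDerivAt_Pc {u y : ℝ} (hu : 0 < u) : HasDerivAt (fun u => Pc u y) (g y u) u := by
  have hpos : 0 < u ^ 2 + y ^ 2 := by positivity
  have h1 : HasDerivAt (fun u : ℝ => u / 2 * Real.log (u ^ 2 + y ^ 2))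
      (1 / 2 * Real.log (u ^ 2 + y ^ 2) + u / 2 * (2 * u / (u ^ 2 + y ^ 2))) u := by
    have ha : HasDerivAt (fun u : ℝ => u / 2) (1 / 2) u := (hasDerivAt_id u).div_const 2
    have hb : HasDerivAt (fun u : ℝ => u ^ 2 + y ^ 2) (2 * u) u := by
      have := (hasDerivAt_pow 2 u).add_const (y ^ 2)
      simpa using this
    exact ha.mul (hb.log hpos.ne')
  have h2 : HasDerivAt (fun u : ℝ => y * Real.arctan (u / y)) (y ^ 2 / (u ^ 2 + y ^ 2)) u := by
    rcases eq_or_ne y 0 with rfl | hy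
    · have e1 : (fun u : ℝ => (0:ℝ) * Real.arctan (u / 0)) = fun _ => 0 := by
        funext u; ring
      rw [e1]
      have e2 : (0:ℝ) ^ 2 / (u ^ 2 + 0 ^ 2) = 0 := by simp
      rw [e2]
      exact hasDerivAt_const u 0
    · have hd : HasDerivAt (fun u : ℝ => u / y) (1 / y) u := (hasDerivAt_id u).div_const y
      have := (hd.arctan).const_mul y
      have e3 : y * (1 / (1 + (u / y) ^ 2) * (1 / y)) = y ^ 2 / (u ^ 2 + y ^ 2) := by
        have hy2 : 0 < y ^ 2 := by positivity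
        field_simp
        ring
      rw [e3] at this
      exact this
  have h3 := (h1.sub (hasDerivAt_id u)).add h2
  have e4 : 1 / 2 * Real.log (u ^ 2 + y ^ 2) + u / 2 * (2 * u / (u ^ 2 + y ^ 2)) - 1 +
      y ^ 2 / (u ^ 2 + y ^ 2) = g y u := by
    unfold g
    field_simp
    ring
  rw [e4] at h3
  exact h3

lemma g_mono {y u v : ℝ} (hu : 0 < u) (huv : u ≤ v) : g y u ≤ g y v := by
  unfold g
  have h1 : 0 < u ^ 2 + y ^ 2 := by positivity
  have h2 : u ^ 2 + y ^ 2 ≤ v ^ 2 + y ^ 2 := by nlinarith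
  have := Real.log_le_log h1 h2
  linarith

lemma mvt {y u v : ℝ} (hu : 0 < u) (huv : u < v) :
    (v - u) * g y u ≤ Pc v y - Pc u y ∧ Pc v y - Pc u y ≤ (v - u) * g y v := by
  obtain ⟨c, hc, hcd⟩ := exists_hasDerivAt_eq_slope (fun u => Pc u y) (g y) huv
    (fun x hx => (hasDerivAt_Pc (lt_of_lt_of_le hu hx.1)).continuousAt.continuousWithinAt)
    (fun x hx => hasDerivAt_Pc (hu.trans hx.1))
  have h0 : 0 < v - u := by linarith
  have h1 : Pc v y - Pc u y = (v - u) * g y c := by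
    rw [hcd]
    field_simp
  rw [h1]
  exact ⟨mul_le_mul_of_nonneg_left (g_mono hu hc.1.le) h0.le,
    mul_le_mul_of_nonneg_left (g_mono (hu.trans hc.1) hc.2.le) h0.le⟩

lemma norm_zl (y : ℝ) (k : ℕ) : Real.log ‖zl y + (k : ℂ)‖ = g y ((k : ℝ) + 1 / 2) := by
  unfold g
  have h1 : ‖zl y + (k : ℂ)‖ ^ 2 = ((k : ℝ) + 1 / 2) ^ 2 + y ^ 2 := by
    rw [Complex.sq_norm, Complex.normSq_apply]
    simp [zl]
    ring
  rw [← h1, Real.log_pow]
  push_cast
  ring

lemma norm_pos (y : ℝ) (k : ℕ) : 0 < ‖zl y + (k : ℂ)‖ := by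
  rw [norm_pos_iff]
  intro h
  have := congrArg Complex.re h
  simp [zl] at this
  have hk : (0 : ℝ) ≤ k := Nat.cast_nonneg k
  linarith

lemma aeval_An (y : ℝ) (a : ℕ) : ‖aeval (zl y) (An a)‖ = ∏ i ∈ Finset.range a, ‖zl y + (i : ℂ)‖ := by
  unfold An
  rw [map_prod, norm_prod]
  refine Finset.prod_congr rfl fun i _ => ?_
  simp

lemma aeval_Pn (y : ℝ) (a b : ℕ) :
    ‖aeval (zl y) (Pn a b)‖ = ∏ k ∈ Finset.Icc a b, ‖zl y + (k : ℂ)‖ := by
  unfold Pn
  rw [map_prod, norm_prod]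
  refine Finset.prod_congr rfl fun i _ => ?_
  simp

lemma num_le (y : ℝ) (n : ℕ) :
    ∑ i ∈ Finset.range n, g y ((i : ℝ) + 1 / 2) ≤ Pc ((n : ℝ) + 1 / 2) y - Pc (1 / 2) y := by
  induction n with
  | zero => simp
  | succ n ih =>
    rw [Finset.sum_range_succ]
    have h1 := (mvt (y := y) (u := (n : ℝ) + 1 / 2) (v := (n : ℝ) + 1 + 1 / 2) (by positivity)
      (by linarith)).1
    have h2 : (n : ℝ) + 1 + 1 / 2 - ((n : ℝ) + 1 / 2) = 1 := by ring
    rw [h2, one_mul] at h1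
    push_cast
    linarith

lemma den_ge (y : ℝ) (n : ℕ) (hn : 1 ≤ n) (m : ℕ) :
    Pc ((n + m : ℕ) + 1 / 2) y - Pc ((n : ℝ) - 1 / 2) y ≤
      ∑ k ∈ Finset.Icc n (n + m), g y ((k : ℝ) + 1 / 2) := by
  have hn1 : (1 : ℝ) ≤ n := by exact_mod_cast hn
  induction m with
  | zero =>
    simp only [add_zero, Finset.Icc_self, Finset.sum_singleton]
    have h1 := (mvt (y := y) (u := (n : ℝ) - 1 / 2) (v := (n : ℝ) + 1 / 2) (by linarith)
      (by linarith)).2
    have h2 : (n : ℝ) + 1 / 2 - ((n : ℝ) - 1 / 2) = 1 := by ring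
    rw [h2, one_mul] at h1
    exact h1
  | succ m ih =>
    have h0 : n + (m + 1) = n + m + 1 := by ring
    rw [h0, Finset.sum_Icc_succ_top (by omega)]
    have h1 := (mvt (y := y) (u := ((n + m : ℕ) : ℝ) + 1 / 2) (v := ((n + m : ℕ) : ℝ) + 1 + 1 / 2)
      (by positivity) (by linarith)).2
    have h2 : ((n + m : ℕ) : ℝ) + 1 + 1 / 2 - (((n + m : ℕ) : ℝ) + 1 / 2) = 1 := by ring
    rw [h2, one_mul] at h1
    have h3 : ((n + m + 1 : ℕ) : ℝ) = ((n + m : ℕ) : ℝ) + 1 := by push_cast; ring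
    rw [h3]
    linarith

lemma scale (a y : ℝ) (n : ℕ) (ha : 0 < a) (hn : 1 ≤ n) :
    Pc (a * n) y = n * Pc a (y / n) + a * n * Real.log n := by
  have hn0 : (0 : ℝ) < n := by exact_mod_cast hn
  unfold Pc
  have h1 : (a * n) ^ 2 + y ^ 2 = (n : ℝ) ^ 2 * (a ^ 2 + (y / n) ^ 2) := by
    field_simp
  have h2 : 0 < a ^ 2 + (y / n) ^ 2 := by positivity
  rw [h1, Real.log_mul (by positivity) h2.ne', Real.log_pow]
  have h3 : a * n / y = a / (y / n) := by
    rw [div_div_eq_mul_div]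
  rw [h3]
  have h4 : (n : ℝ) * (y / n * Real.arctan (a / (y / n))) = y * Real.arctan (a / (y / n)) := by
    field_simp
  push_cast
  linear_combination -h4

lemma Pc_half (y : ℝ) : -1 ≤ Pc (1 / 2) y := by
  unfold Pc
  have h1 : Real.log (1 / 4) ≤ Real.log ((1 / 2) ^ 2 + y ^ 2) := by
    apply Real.log_le_log (by norm_num)
    nlinarith [sq_nonneg y]
  have h2 : Real.log (1 / 4) = -(2 * Real.log 2) := by
    have : (1 / 4 : ℝ) = (2 ^ 2)⁻¹ := by norm_num
    rw [this, Real.log_inv, Real.log_pow]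
    push_cast
    ring
  have h3 := Real.log_two_lt_d9
  have h4 : 0 ≤ y * Real.arctan (1 / 2 / y) := by
    rcases le_or_gt 0 y with hy | hy
    · exact mul_nonneg hy (Real.arctan_nonneg.2 (by positivity))
    · have : Real.arctan (1 / 2 / y) ≤ 0 := by
        have h5 := Real.arctan_strictMono.monotone
          (div_nonpos_of_nonneg_of_nonpos (by norm_num : (0:ℝ) ≤ 1 / 2) hy.le)
        rwa [Real.arctan_zero] at h5
      exact mul_nonneg_of_nonpos_of_nonpos hy.le this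
  linarith

end

end H154W

open H154W in
theorem G5_weight : S_weight := by
  refine ⟨4, by norm_num, fun n hn y => ?_⟩
  have hn0 : (2 : ℝ) ≤ n := by exact_mod_cast hn
  have hNpos : 0 < ∏ i ∈ Finset.range n, ‖zl y + (i : ℂ)‖ :=
    Finset.prod_pos fun i _ => norm_pos y i
  have hDpos : 0 < ∏ k ∈ Finset.Icc n (5 * n), ‖zl y + (k : ℂ)‖ :=
    Finset.prod_pos fun i _ => norm_pos y i
  have hcpos : 0 < Real.cosh (Real.pi * y) := Real.cosh_pos _
  have hww : ww n (5 * n) y = (∏ i ∈ Finset.range n, ‖zl y + (i : ℂ)‖) /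
      (∏ k ∈ Finset.Icc n (5 * n), ‖zl y + (k : ℂ)‖) / Real.cosh (Real.pi * y) := by
    unfold ww
    rw [aeval_An, aeval_Pn]
  have hpos : 0 < ww n (5 * n) y := by
    rw [hww]
    positivity
  rw [← Real.log_le_iff_le_exp hpos, hww, Real.log_div (by positivity) hcpos.ne',
    Real.log_div hNpos.ne' hDpos.ne', Real.log_prod fun i _ => (norm_pos y i).ne',
    Real.log_prod fun i _ => (norm_pos y i).ne']
  simp only [norm_zl]
  -- numerator
  have h1 := num_le y n
  have h2 := (mvt (y := y) (u := (n : ℝ)) (v := (n : ℝ) + 1 / 2) (by linarith) (by linarith)).2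
  have h3 := Pc_half y
  -- denominator
  have h4 := den_ge y n (by omega) (4 * n)
  have e5 : n + 4 * n = 5 * n := by ring
  rw [e5] at h4
  have h5 := (mvt (y := y) (u := ((5 * n : ℕ) : ℝ)) (v := ((5 * n : ℕ) : ℝ) + 1 / 2)
    (by push_cast; linarith) (by linarith)).1
  have h6 := (mvt (y := y) (u := (n : ℝ) - 1 / 2) (v := (n : ℝ)) (by linarith) (by linarith)).1
  have hg1 : 0 ≤ g y ((5 * n : ℕ) : ℝ) := by
    unfold g
    have : 1 ≤ (((5 * n : ℕ) : ℝ)) ^ 2 + y ^ 2 := by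
      have h7 : (1 : ℝ) ≤ ((5 * n : ℕ) : ℝ) := by push_cast; linarith
      nlinarith [sq_nonneg y]
    have := Real.log_nonneg this
    linarith
  have hg2 : 0 ≤ g y ((n : ℝ) - 1 / 2) := by
    unfold g
    have : 1 ≤ ((n : ℝ) - 1 / 2) ^ 2 + y ^ 2 := by
      nlinarith [sq_nonneg y]
    have := Real.log_nonneg this
    linarith
  -- g (n + 1/2)
  have hab := abs_nonneg y
  have hL : Real.log 2 ≤ Real.log (n + |y|) := Real.log_le_log (by norm_num) (by linarith)
  have hg3 : g y ((n : ℝ) + 1 / 2) ≤ Real.log 2 + Real.log (n + |y|) := by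
    unfold g
    have e1 : ((n : ℝ) + 1 / 2) ^ 2 + y ^ 2 ≤ (2 * (n + |y|)) ^ 2 := by
      have : y ^ 2 = |y| ^ 2 := (sq_abs y).symm
      rw [this]
      nlinarith
    have e2 := Real.log_le_log (by positivity) e1
    rw [Real.log_pow, Real.log_mul (by norm_num) (by positivity)] at e2
    push_cast at e2
    linarith
  -- cosh
  have hcosh : Real.pi * |y| - Real.log 2 ≤ Real.log (Real.cosh (Real.pi * y)) := by
    have e1 : Real.exp (Real.pi * |y|) / 2 ≤ Real.cosh (Real.pi * y) := by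
      rw [Real.cosh_eq]
      rcases abs_cases y with ⟨h, _⟩ | ⟨h, _⟩
      · rw [h]
        have := Real.exp_pos (-(Real.pi * y))
        linarith
      · rw [h]
        have := Real.exp_pos (Real.pi * y)
        have e3 : Real.pi * -y = -(Real.pi * y) := by ring
        rw [e3]
        linarith
    have e2 := Real.log_le_log (by positivity) e1
    rw [Real.log_div (Real.exp_pos _).ne' (by norm_num), Real.log_exp] at e2
    exact e2
  -- scaling
  have hs1 := scale 1 y n one_pos (by omega)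
  have hs5 := scale 5 y n (by norm_num) (by omega)
  have hphi : (n : ℝ) * Phi (y / n) = n * (2 * Pc 1 (y / n) - Pc 5 (y / n)) - Real.pi * |y| := by
    unfold Phi
    rw [abs_div, Nat.abs_cast]
    have hn1 : (n : ℝ) ≠ 0 := by linarith
    field_simp
  rw [one_mul] at hs1
  have h55 : ((5 * n : ℕ) : ℝ) = 5 * n := by push_cast; ring
  rw [h55] at h4 h5 hg1
  have hl2 := Real.log_two_gt_d9
  rw [hphi]
  nlinarith
end Pool.Agent.LPB
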